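import Pool.Agent.Helper94.DL.Final

/-!
# The two trees of faces of the uniform random meander

The upper half plane is cut by the upper arcs of a meander into faces, which form a tree; the same holds below.
For the uniform random meander of size `m`, the distances between the gaps of the line in these trees satisfy an
exponential moment bound which is uniform in `m` and in the gap; in particular all faces have at most `C log m`
gaps on their boundary and all balls grow at most exponentially, with rate arbitrarily close to `A`.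
-/

set_option autoImplicit false

namespace Pool.Agent.Results.MP_275a4d_pr.FaceTrees

open Filter Topology Finset Pool.Agent.Helper11.Mdr Pool.Agent.Helper94.DL

theorem result : ∃ A : ℝ, 2 ≤ A ∧ A ≤ 16 ∧
    Tendsto (fun m : ℕ => (num m : ℝ) ^ (1 / (m : ℝ))) atTop (𝓝 A) ∧
    (∀ s t : ℝ, 0 ≤ s → 0 ≤ t → s * A + t * A ^ 2 < 1 → ∃ C : ℝ, ∀ m ≥ 1, ∀ k < 2 * m,
      mean m (fun M => ∏ k' ∈ range (2 * m), (1 + t * s ^ sep M.1 k k')) ≤ C ∧
      mean m (fun M => ∏ k' ∈ range (2 * m), (1 + t * s ^ sep M.2 k k')) ≤ C) ∧
    (∀ B > A, ∃ C : ℝ, ∀ m ≥ 2, prob m {M | ∃ k < 2 * m, ∃ r : ℕ,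
      C * B ^ r * Real.log m < ball m M.1 k r ∨
      C * B ^ r * Real.log m < ball m M.2 k r} ≤ 1 / m) :=
  main

end Pool.Agent.Results.MP_275a4d_pr.FaceTrees
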