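import Pool.Agent.Helper94.HW.Main
import Pool.Agent.Helper94.HW.Ratio

/-!
# Meander numbers up to a subexponential factor

`M_m = num m` is the number of meanders of size `m` and `A` the growth constant.  The lower bound
`M_m ≥ A^m exp(-C √m log m)` is proved by cutting a meander along a fundamental cycle of a planar
separator and by reducing both parts, three crossings at a time, to meanders.  It gives a rate in
the ratio limit theorem.
-/

set_option autoImplicit false

namespace Pool.Agent.Results.MP_275a4d_pr.HammersleyWelsh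

open Pool.Agent.Helper11.Mdr Pool.Agent.Helper94.HW

theorem result : ∃ A : ℝ, 2 ≤ A ∧ A ≤ 16 ∧ ∃ C : ℝ, ∀ m : ℕ, 2 ≤ m →
      A ^ m * Real.exp (-(C * Real.sqrt m * Real.log m)) ≤ num m ∧ (num m : ℝ) ≤ A ^ m ∧
      |(num (m + 1) : ℝ) / num m - A| ≤ C * (m : ℝ) ^ (-(1 / 4 : ℝ)) * Real.sqrt (Real.log m) := by
  obtain ⟨K, hK⟩ := hw_bound
  obtain ⟨K', hK'⟩ := ratio_rate ⟨K, hK⟩
  refine ⟨AA, two_le_AA, AA_le, max K K', fun m hm => ⟨?_, num_le_AA (by omega), ?_⟩⟩
  · have h1 : 0 ≤ Real.sqrt m * Real.log m := by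
      have : (1 : ℝ) ≤ m := by exact_mod_cast (by omega : 1 ≤ m)
      exact mul_nonneg (Real.sqrt_nonneg _) (Real.log_nonneg this)
    have h2 : K * Real.sqrt m * Real.log m ≤ max K K' * Real.sqrt m * Real.log m := by
      rw [mul_assoc, mul_assoc]
      exact mul_le_mul_of_nonneg_right (le_max_left _ _) h1
    rw [Real.exp_neg, ← div_eq_mul_inv, div_le_iff₀ (Real.exp_pos _)]
    exact (hK m hm).trans (mul_le_mul_of_nonneg_left (Real.exp_le_exp.2 h2) (Nat.cast_nonneg _))
  · refine (hK' m hm).trans ?_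
    rw [mul_assoc, mul_assoc]
    exact mul_le_mul_of_nonneg_right (le_max_right _ _)
      (mul_nonneg (Real.rpow_nonneg (Nat.cast_nonneg _) _) (Real.sqrt_nonneg _))

end Pool.Agent.Results.MP_275a4d_pr.HammersleyWelsh
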