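import Pool.Agent.Helper11.Mdr.Final

/-!
# Local statistics of uniformly random meanders

For a uniformly random meander of size `m` (a simple closed curve crossing a line at `2 m` points,
encoded by its two noncrossing perfect matchings; the last point plays the part of infinity):
ratio limit theorem, exact frequencies of all one-strand patterns, interchangeability, asymptotic
Gibbs property for interchangeable local configurations and Kesten type pattern theorem.
-/

set_option autoImplicit false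

namespace Pool.Agent.Results.MP_275a4d_pr.PatternFrequencies

open Filter Topology Pool.Agent.Helper11.Mdr

theorem result : ∃ A : ℝ, 2 ≤ A ∧ A ≤ 16 ∧
    Tendsto (fun m : ℕ => (num m : ℝ) ^ (1 / (m : ℝ))) atTop (𝓝 A) ∧
    Tendsto (fun m : ℕ => (num (m + 1) : ℝ) / num m) atTop (𝓝 A) ∧
    (∀ (c : ℕ) (T : (ℕ → ℕ) × (ℕ → ℕ)), IsMeander (c + 1) T → ∀ ε > 0, ∃ δ > 0,
      ∀ᶠ m : ℕ in atTop,
        prob m {M | ε < |(occ c m T M : ℝ) / (2 * m) - (A ^ c)⁻¹|} ≤ Real.exp (-(δ * m))) ∧
    (∀ (c : ℕ) (T : (ℕ → ℕ) × (ℕ → ℕ)) (l : Bool × Bool), IsMeander (c + 1) T →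
      Interch [l] (tword c T l)) ∧
    (∀ (v v' : List (Bool × Bool)) (c : ℕ), Interch v v' → v'.length = v.length + 2 * c →
      ∀ ε > 0, ∃ δ > 0, ∀ᶠ m : ℕ in atTop,
        prob m {M | ε < |(occW v' (word m M) : ℝ) / (2 * m) -
          (A ^ c)⁻¹ * (occW v (word m M) / (2 * m))|} ≤ Real.exp (-(δ * m))) ∧
    (∀ x v y : List (Bool × Bool), y ≠ [] → IsMW (x ++ v ++ y) → ∃ a > 0, ∃ δ > 0,
      ∀ᶠ m : ℕ in atTop,
        prob m {M | (occW v (word m M) : ℝ) < a * m} ≤ Real.exp (-(δ * m))) :=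
  main

end Pool.Agent.Results.MP_275a4d_pr.PatternFrequencies
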