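import Pool.Agent.Helper94.HW.Main
import Pool.Agent.Helper94.HW.Tail

/-!
# Uniform concentration of pattern counts in a uniformly random meander

For a one strand pattern `T` with `2 c + 1` crossings, outside of an event of probability
`exp(-√m log m)`, the number of occurrences of `T` in every window of `ℓ` consecutive crossings of
the uniform meander of size `m` is `ℓ / A^c` up to an error `C m^(3/4) √(log m)`.
-/

set_option autoImplicit false

namespace Pool.Agent.Results.MP_275a4d_pr.WindowConcentration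

open Filter Topology Pool.Agent.Helper11.Mdr Pool.Agent.Helper94.HW

theorem result : ∃ A : ℝ, Tendsto (fun m : ℕ => (num m : ℝ) ^ (1 / (m : ℝ))) atTop (𝓝 A) ∧
    ∀ (c : ℕ) (T : (ℕ → ℕ) × (ℕ → ℕ)), IsMeander (c + 1) T → ∃ C : ℝ, ∀ m : ℕ, 2 ≤ m →
      prob m {M | ∃ i ℓ : ℕ, i + ℓ ≤ 2 * m - 1 ∧
        C * (m : ℝ) ^ (3 / 4 : ℝ) * Real.sqrt (Real.log m) < |(ow c m T M i ℓ : ℝ) - ℓ / A ^ c|} ≤
      Real.exp (-(Real.sqrt m * Real.log m)) :=
  ⟨AA, root_limit, fun _ _ hT => conc hw_bound hT⟩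

end Pool.Agent.Results.MP_275a4d_pr.WindowConcentration
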